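import Pool.Agent.H123Z.GSC.Basic

set_option autoImplicit false
set_option linter.all false

namespace Pool.Agent.H123Z.GSC

open Finset PowerSeries Filter Topology

namespace ThmU

variable {𝔸 : Type} [NormedRing 𝔸] [NormedAlgebra ℝ 𝔸]

theorem gam_one (Z : Subring 𝔸) (P : 𝔸 →ₗ[ℝ] 𝔸) : Gam Z P 1 :=
  ⟨(cfr Z).one_mem, (finS 𝔸).one_mem, by rw [inv_one]; exact (cfr Z).one_mem,
    by rw [inv_one]; exact (finS 𝔸).one_mem, tau_one P⟩

theorem gam_mul {Z : Subring 𝔸} {P : 𝔸 →ₗ[ℝ] 𝔸} (hP : ∀ x y, P (x * y) = P (y * x))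
    {E F : (PowerSeries 𝔸)ˣ} (hE : Gam Z P E) (hF : Gam Z P F) : Gam Z P (E * F) := by
  obtain ⟨a1, a2, a3, a4, a5⟩ := hE
  obtain ⟨b1, b2, b3, b4, b5⟩ := hF
  refine ⟨(cfr Z).mul_mem a1 b1, (finS 𝔸).mul_mem a2 b2, ?_, ?_, fun k => ?_⟩
  · rw [mul_inv_rev]; exact (cfr Z).mul_mem b3 a3
  · rw [mul_inv_rev]; exact (finS 𝔸).mul_mem b4 a4
  · rw [tau_mul P hP, a5, b5, add_zero]

theorem key_id (P : 𝔸 →ₗ[ℝ] 𝔸) (W : (PowerSeries 𝔸)ˣ) (hW : ∀ k, tau P W k = 0) (k : ℕ) :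
    (k : ℝ) • P (coeff k ((W : PowerSeries 𝔸) - 1)) =
      P (coeff k (Dt ((W : PowerSeries 𝔸) - 1) *
        (1 - ((W⁻¹ : (PowerSeries 𝔸)ˣ) : PowerSeries 𝔸)))) := by
  have h := hW k
  unfold tau at h
  have h1 : Dt ((W : PowerSeries 𝔸) - 1) = Dt (W : PowerSeries 𝔸) := by
    rw [Dt_sub, Dt_one, sub_zero]
  rw [mul_sub, mul_one, map_sub (coeff k) (Dt _), map_sub P, coeff_Dt, map_smul, h1, h, sub_zero]

theorem w_eq (W : (PowerSeries 𝔸)ˣ) : (1 - ((W⁻¹ : (PowerSeries 𝔸)ˣ) : PowerSeries 𝔸)) =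
    ((W : PowerSeries 𝔸) - 1) * ((W⁻¹ : (PowerSeries 𝔸)ˣ) : PowerSeries 𝔸) := by
  rw [sub_mul, Units.mul_inv, one_mul]

theorem P_lead (P : 𝔸 →ₗ[ℝ] 𝔸) (W : (PowerSeries 𝔸)ˣ) (hW : ∀ k, tau P W k = 0) {K : ℕ}
    (hK : 1 ≤ K) (hz : Van K ((W : PowerSeries 𝔸) - 1)) :
    P (coeff K ((W : PowerSeries 𝔸) - 1)) = 0 := by
  have h := key_id P W hW K
  have h1 : Van K (Dt ((W : PowerSeries 𝔸) - 1)) := fun k hk => by
    rw [coeff_Dt, hz k hk, smul_zero]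
  have h2 : Van K (1 - ((W⁻¹ : (PowerSeries 𝔸)ˣ) : PowerSeries 𝔸)) := by
    rw [w_eq]; exact hz.mul_right _
  rw [(h1.mul h2) K (by omega), map_zero] at h
  exact (smul_eq_zero.mp h).resolve_left (by exact_mod_cast (by omega : K ≠ 0))

theorem P_small (P : 𝔸 →ₗ[ℝ] 𝔸) (hPn : ∀ x, ‖P x‖ ≤ ‖x‖) (W : (PowerSeries 𝔸)ˣ)
    (hW : ∀ k, tau P W k = 0) (hz : Van 1 ((W : PowerSeries 𝔸) - 1)) {ρ e : ℝ} (hρ : 0 ≤ ρ)
    (he : e ≤ 1 / 2) (hb : Bd ρ ((W : PowerSeries 𝔸) - 1) e) :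
    Bd ρ (PowerSeries.mk fun k => P (coeff k ((W : PowerSeries 𝔸) - 1))) (2 * e ^ 2) := by
  set z := (W : PowerSeries 𝔸) - 1 with hzd
  set w := 1 - ((W⁻¹ : (PowerSeries 𝔸)ˣ) : PowerSeries 𝔸) with hw
  have he0 := hb.nonneg
  have h1 : w = z + (-z) * w := by
    have h2 : ((W⁻¹ : (PowerSeries 𝔸)ˣ) : PowerSeries 𝔸) = 1 - w := by rw [hw]; abel
    have h3 : w = z * ((W⁻¹ : (PowerSeries 𝔸)ˣ) : PowerSeries 𝔸) := w_eq W
    rw [h2, mul_sub, mul_one] at h3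
    rw [neg_mul, ← sub_eq_add_neg]
    exact h3
  have h2 : Bd ρ w (2 * e) := by
    refine (Bd.fix hρ hb hb.neg (by linarith) h1).le ?_
    rw [div_le_iff₀ (by linarith)]
    nlinarith
  refine (hb.of_conv hρ h2 fun k => ?_).le (le_of_eq (by ring))
  rw [coeff_mk]
  rcases Nat.eq_zero_or_pos k with rfl | hk
  · rw [hz 0 (by omega), map_zero, norm_zero]
    exact Finset.sum_nonneg fun _ _ => by positivity
  have h3 := congrArg norm (key_id P W hW k)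
  rw [norm_smul, Real.norm_natCast] at h3
  have h4 : ‖P (coeff k (Dt z * w))‖ ≤
      (k : ℝ) * ∑ y ∈ antidiagonal k, ‖coeff y.1 z‖ * ‖coeff y.2 w‖ := by
    refine (hPn _).trans ((norm_coeff_mul_le _ _ _).trans ?_)
    rw [Finset.mul_sum]
    refine Finset.sum_le_sum fun y hy => ?_
    rw [Finset.HasAntidiagonal.mem_antidiagonal] at hy
    rw [coeff_Dt, norm_smul, Real.norm_natCast, mul_assoc]
    exact mul_le_mul_of_nonneg_right (by exact_mod_cast (by omega : y.1 ≤ k)) (by positivity)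
  rw [← h3] at h4
  exact le_of_mul_le_mul_left h4 (by exact_mod_cast hk)

theorem formal (Z : Subring 𝔸) (P : 𝔸 →ₗ[ℝ] 𝔸) (hP : ∀ x y, P (x * y) = P (y * x))
    {I : Type} [Fintype I] (m : I → 𝔸) (c : I → 𝔸 → ℝ)
    (hdec : ∀ x, x = P x + ∑ i, c i x • m i)
    (hint : ∀ i x, x ∈ Z → ∃ z : ℤ, c i x = z) (hA : Appr Z P m) (U : (PowerSeries 𝔸)ˣ)
    (hU0 : PowerSeries.coeff 0 (U : PowerSeries 𝔸) = 1)
    (hUZ : ∀ k, PowerSeries.coeff k (U : PowerSeries 𝔸) ∈ Z) (hUt : ∀ k, tau P U k = 0)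
    (K : ℕ) (hK : 1 ≤ K) :
    ∃ E : (PowerSeries 𝔸)ˣ, Gam Z P E ∧ Van K (((E * U : (PowerSeries 𝔸)ˣ) : PowerSeries 𝔸) - 1) := by
  induction K, hK using Nat.le_induction with
  | base =>
    refine ⟨1, gam_one Z P, van_one_iff.mpr ?_⟩
    rw [one_mul, map_sub, hU0]; simp
  | succ K hK ih =>
    obtain ⟨E, hE, hz⟩ := ih
    have hW : ∀ k, tau P (E * U) k = 0 := fun k => by rw [tau_mul P hP, hE.2.2.2.2, hUt, add_zero]
    have h1 := P_lead P _ hW hK hz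
    set W := E * U with hWd
    set z := (W : PowerSeries 𝔸) - 1 with hzd
    have h2 : coeff K z ∈ Z :=
      ((cfr Z).sub_mem ((cfr Z).mul_mem hE.1 hUZ) (cfr Z).one_mem : z ∈ cfr Z) K
    choose n hn using fun i => hint i _ h2
    obtain ⟨C, -, hC⟩ := hA 0 le_rfl
    obtain ⟨E', hE', h3, -, -⟩ := hC K 0 (fun i k => if k = K then -n i else 0) hK le_rfl zero_le_one
      (fun i k hk => if_neg (by omega)) ⟨K + 1, fun i k hk => if_neg (by omega)⟩ (fun i K' => by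
        refine le_of_eq (Finset.sum_eq_zero fun k _ => ?_)
        split_ifs with h
        · rw [h, zero_pow (by omega), mul_zero]
        · simp)
    set y : PowerSeries 𝔸 := PowerSeries.mk fun k =>
      ∑ i, (((if k = K then -n i else 0 : ℤ)) : ℝ) • m i with hy
    have hy0 : Van K y := fun k hk => by
      rw [hy, coeff_mk, Finset.sum_eq_zero]
      intro i _
      rw [if_neg (by omega)]; simp
    have hyz : Van (K + 1) (y + z) := by
      intro k hk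
      rcases Nat.lt_succ_iff_lt_or_eq.mp hk with h | rfl
      · exact (hy0.add hz) k h
      · rw [map_add, hy, coeff_mk]
        conv_lhs => rw [hdec (coeff k z), h1, zero_add]
        rw [← Finset.sum_add_distrib]
        refine Finset.sum_eq_zero fun i _ => ?_
        rw [if_pos rfl, hn, ← add_smul]; simp
    refine ⟨E' * E, gam_mul hP hE' hE, ?_⟩
    have h4 : ((E' * E * U : (PowerSeries 𝔸)ˣ) : PowerSeries 𝔸) - 1 =
        ((E' : PowerSeries 𝔸) - 1 - y) * W + (y + z) + y * z := by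
      rw [mul_assoc, ← hWd, Units.val_mul, hzd]; noncomm_ring
    rw [h4]
    exact ((h3.mul_right _).add hyz).add ((hy0.mul hz).mono (by omega))

noncomputable def tr (x : ℝ) : ℤ := if 0 ≤ x then ⌊x⌋ else ⌈x⌉

theorem tr_abs (x : ℝ) : |(tr x : ℝ)| ≤ |x| := by
  unfold tr
  split_ifs with h
  · have h1 := Int.floor_le x
    have h2 : (0 : ℝ) ≤ ⌊x⌋ := by exact_mod_cast Int.floor_nonneg.mpr h
    rw [abs_of_nonneg h, abs_of_nonneg h2]; exact h1
  · have h1 := Int.le_ceil x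
    have h2 : (⌈x⌉ : ℝ) ≤ 0 := by exact_mod_cast Int.ceil_le.mpr (by push_cast; linarith)
    rw [abs_of_nonpos h2, abs_of_nonpos (by linarith)]; linarith

theorem tr_err (x : ℝ) : |x - tr x| ≤ 1 := by
  unfold tr
  rw [abs_le]
  split_ifs with h
  · have h1 := Int.floor_le x
    have h2 := Int.lt_floor_add_one x
    constructor <;> linarith
  · have h1 := Int.le_ceil x
    have h2 := Int.ceil_lt_add_one x
    constructor <;> linarith

theorem rounding (Z : Subring 𝔸) (P : 𝔸 →ₗ[ℝ] 𝔸) (hPn : ∀ x, ‖P x‖ ≤ ‖x‖)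
    {I : Type} [Fintype I] (m : I → 𝔸) (c : I → 𝔸 → ℝ)
    (hc : ∀ i x, |c i x| ≤ ‖x‖) (hdec : ∀ x, x = P x + ∑ i, c i x • m i) (hA : Appr Z P m)
    (ρ : ℝ) (hρ0 : 0 < ρ) (hρ1 : ρ < 1) :
    ∃ C : ℝ, 0 < C ∧ ∀ (K : ℕ) (e : ℝ) (W : (PowerSeries 𝔸)ˣ), 1 ≤ K → 0 < e → e ≤ 1 / 2 →
      (∀ k, tau P W k = 0) → Van K ((W : PowerSeries 𝔸) - 1) → Bd ρ ((W : PowerSeries 𝔸) - 1) e →
      ∃ E : (PowerSeries 𝔸)ˣ, Gam Z P E ∧
        Van K (((E * W : (PowerSeries 𝔸)ˣ) : PowerSeries 𝔸) - 1) ∧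
        Bd ρ (((E * W : (PowerSeries 𝔸)ˣ) : PowerSeries 𝔸) - 1)
          (C * e ^ 2 + (∑ i, ‖m i‖) * ρ ^ K / (1 - ρ)) := by
  obtain ⟨C, hC0, hC⟩ := hA ρ hρ0.le
  refine ⟨3 + 3 * C, by linarith, fun K e W hK he0 he hW hz hb => ?_⟩
  have hPz := P_small P hPn W hW (hz.mono hK) hρ0.le he hb
  set z := (W : PowerSeries 𝔸) - 1 with hzd
  obtain ⟨K', hK'⟩ := hb.tail hρ0.le (e ^ 2) (by positivity)
  have htail := hK' K' le_rfl
  have hc0 : ∀ i k, k < K → c i (coeff k z) = 0 := fun i k hk => by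
    have := hc i (coeff k z)
    rw [hz k hk, norm_zero] at this
    rw [hz k hk]
    exact abs_nonpos_iff.mp this
  set s : I → ℕ → ℤ := fun i k => if k < K' then -tr (c i (coeff k z)) else 0 with hs
  have hs0 : ∀ i k, k < K → s i k = 0 := fun i k hk => by
    simp only [hs, hc0 i k hk]
    simp [tr]
  obtain ⟨E, hE, h1, h2, h3⟩ := hC K e s hK he0.le (by linarith) hs0
    ⟨K', fun i k hk => if_neg (by omega)⟩ (fun i N => by
      refine le_trans (Finset.sum_le_sum fun k _ => ?_) (hb N)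
      refine mul_le_mul_of_nonneg_right ?_ (by positivity)
      simp only [hs]
      split_ifs
      · rw [Int.cast_neg, abs_neg]; exact (tr_abs _).trans (hc _ _)
      · simp)
  set y : PowerSeries 𝔸 := PowerSeries.mk fun k => ∑ i, (s i k : ℝ) • m i with hy
  have hy0 : Van K y := fun k hk => by
    rw [hy, coeff_mk, Finset.sum_eq_zero]
    intro i _
    rw [hs0 i k hk]; simp
  set err : PowerSeries 𝔸 := PowerSeries.mk fun k =>
    if k < K' then ∑ i, (c i (coeff k z) - tr (c i (coeff k z))) • m i else 0 with herr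
  have herr0 : Van K err := fun k hk => by
    rw [herr, coeff_mk]
    split_ifs
    · refine Finset.sum_eq_zero fun i _ => ?_
      rw [hc0 i k hk]; simp [tr]
    · rfl
  have herr1 : Bd ρ err ((∑ i, ‖m i‖) * ρ ^ K / (1 - ρ)) := by
    refine bd_of_coeff_le hρ0.le hρ1 herr0 fun k => ?_
    rw [herr, coeff_mk]
    split_ifs
    · refine (norm_sum_le _ _).trans (Finset.sum_le_sum fun i _ => ?_)
      rw [norm_smul, Real.norm_eq_abs]
      exact mul_le_of_le_one_left (norm_nonneg _) (tr_err _)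
    · rw [norm_zero]; exact Finset.sum_nonneg fun _ _ => norm_nonneg _
  have hyz : y + z = trn K' (PowerSeries.mk fun k => P (coeff k z)) + err + (z - trn K' z) := by
    ext k
    rw [map_add, map_add, map_add, coeff_sub_trn, coeff_trn, hy, herr, coeff_mk, coeff_mk, coeff_mk]
    simp only [hs]
    split_ifs with h
    · conv_lhs => arg 2; rw [hdec (coeff k z)]
      simp only [sub_smul, Finset.sum_sub_distrib, Int.cast_neg, neg_smul, Finset.sum_neg_distrib]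
      abel
    · simp
  have hP2 : Bd ρ (trn K' (PowerSeries.mk fun k => P (coeff k z))) (2 * e ^ 2) :=
    hPz.of_le hρ0.le fun k => by
      rw [coeff_trn]
      split_ifs
      · exact le_rfl
      · rw [norm_zero]; exact norm_nonneg _
  have h4 : ((E * W : (PowerSeries 𝔸)ˣ) : PowerSeries 𝔸) - 1 =
      (y + z) + ((E : PowerSeries 𝔸) - 1 - y) + (y + ((E : PowerSeries 𝔸) - 1 - y)) * z := by
    rw [Units.val_mul, hzd]; noncomm_ring
  refine ⟨E, hE, ?_, ?_⟩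
  · rw [h4]
    exact ((hy0.add hz).add (h1.mono (by omega))).add (hz.mul_left _)
  · rw [h4]
    have h5 : Bd ρ (y + z) _ := hyz ▸ (hP2.add hρ0.le herr1).add hρ0.le htail
    refine ((h5.add hρ0.le h2).add hρ0.le ((h3.add hρ0.le h2).mul hρ0.le hb)).le ?_
    have h6 : C * e ^ 2 * e ≤ C * e ^ 2 := mul_le_of_le_one_right (by positivity) (by linarith)
    nlinarith

/-- rescaling of the variable -/
noncomputable def rs (t : ℝ) : PowerSeries 𝔸 →+* PowerSeries 𝔸 where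
  toFun f := PowerSeries.mk fun k => t ^ k • coeff k f
  map_one' := by
    ext k
    rw [coeff_mk, coeff_one]
    split_ifs with h <;> simp [h]
  map_mul' f g := by
    ext k
    rw [coeff_mk, coeff_mul, coeff_mul, Finset.smul_sum]
    refine Finset.sum_congr rfl fun y hy => ?_
    rw [Finset.HasAntidiagonal.mem_antidiagonal] at hy
    rw [coeff_mk, coeff_mk, smul_mul_smul_comm, ← pow_add, hy]
  map_zero' := by ext k; simp
  map_add' f g := by ext k; simp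

theorem coeff_rs (t : ℝ) (f : PowerSeries 𝔸) (k : ℕ) : coeff k (rs t f) = t ^ k • coeff k f := by
  simp [rs]

theorem rs_one (f : PowerSeries 𝔸) : rs 1 f = f := by
  ext k; simp [coeff_rs]

theorem van_rs {K : ℕ} {f : PowerSeries 𝔸} (h : Van K f) (t : ℝ) : Van K (rs t f) :=
  fun k hk => by rw [coeff_rs, h k hk, smul_zero]

theorem bd_rs {ρ b t : ℝ} (hρ : 0 ≤ ρ) {f : PowerSeries 𝔸} (h : Bd ρ f b) (h0 : 0 ≤ t) (h1 : t ≤ 1) :
    Bd ρ (rs t f) b := h.of_le hρ fun k => by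
  rw [coeff_rs, norm_smul, Real.norm_of_nonneg (by positivity)]
  exact mul_le_of_le_one_left (norm_nonneg _) (pow_le_one₀ h0 h1)

noncomputable def ru (t : ℝ) (u : (PowerSeries 𝔸)ˣ) : (PowerSeries 𝔸)ˣ :=
  Units.map (rs t : PowerSeries 𝔸 →+* PowerSeries 𝔸).toMonoidHom u

theorem ru_val (t : ℝ) (u : (PowerSeries 𝔸)ˣ) : (ru t u : PowerSeries 𝔸) = rs t u := rfl

theorem ru_inv (t : ℝ) (u : (PowerSeries 𝔸)ˣ) :
    (((ru t u)⁻¹ : (PowerSeries 𝔸)ˣ) : PowerSeries 𝔸) =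
      rs t ((u⁻¹ : (PowerSeries 𝔸)ˣ) : PowerSeries 𝔸) := rfl

theorem tau_ru (P : 𝔸 →ₗ[ℝ] 𝔸) (t : ℝ) (u : (PowerSeries 𝔸)ˣ) (k : ℕ) :
    tau P (ru t u) k = t ^ k • tau P u k := by
  unfold tau
  have h : ∀ f : PowerSeries 𝔸, Dt (rs t f) = rs t (Dt f) := fun f => by
    ext k; rw [coeff_Dt, coeff_rs, coeff_rs, coeff_Dt, smul_comm]
  rw [ru_val, ru_inv, h, ← map_mul, coeff_rs, map_smul]

theorem rs_cont {ρ b : ℝ} (hρ : 0 ≤ ρ) {f : PowerSeries 𝔸} (h : Bd ρ f b) (ε : ℝ) (hε : 0 < ε) :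
    ∃ δ : ℝ, 0 < δ ∧ ∀ t t' : ℝ, 0 ≤ t → t ≤ 1 → 0 ≤ t' → t' ≤ 1 → |t' - t| ≤ δ →
      Bd ρ (rs t' f - rs t f) ε := by
  obtain ⟨N, hN⟩ := h.tail hρ (ε / 2) (by positivity)
  have hb := h.nonneg
  refine ⟨ε / 2 / (N * b + 1), by positivity, fun t t' h0 h1 h0' h1' hd => ?_⟩
  set g := rs t' f - rs t f with hg
  have hc : ∀ k, ‖coeff k g‖ = |t' ^ k - t ^ k| * ‖coeff k f‖ := fun k => by
    rw [hg, map_sub, coeff_rs, coeff_rs, ← sub_smul, norm_smul, Real.norm_eq_abs]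
  have h2 : Bd ρ (g - trn N g) (ε / 2) := (hN N le_rfl).of_le hρ fun k => by
    rw [coeff_sub_trn, coeff_sub_trn]
    split_ifs
    · exact le_rfl
    · rw [hc]
      refine mul_le_of_le_one_left (norm_nonneg _) ?_
      have a1 := pow_le_one₀ h0 h1 (n := k)
      have a2 := pow_le_one₀ h0' h1' (n := k)
      have a3 := pow_nonneg h0 k
      have a4 := pow_nonneg h0' k
      rw [abs_le]; constructor <;> linarith
  have h3 : Bd ρ (trn N g) (ε / 2) := by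
    intro K
    have h4 : ∀ k ∈ range K, ‖coeff k (trn N g)‖ * ρ ^ k ≤
        ε / 2 / (N * b + 1) * N * (‖coeff k f‖ * ρ ^ k) := by
      intro k _
      rw [coeff_trn]
      split_ifs with hk
      · rw [hc, mul_assoc]
        refine mul_le_mul_of_nonneg_right ((abs_pow_sub_pow_le _ _ _).trans ?_) (by positivity)
        have a1 : max |t'| |t| ^ (k - 1) ≤ 1 :=
          pow_le_one₀ (by positivity) (max_le (by rwa [abs_of_nonneg h0']) (by rwa [abs_of_nonneg h0]))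
        refine (mul_le_of_le_one_right (by positivity) a1).trans ?_
        exact mul_le_mul hd (by exact_mod_cast hk.le) (by positivity) (by positivity)
      · rw [norm_zero, zero_mul]; positivity
    refine (Finset.sum_le_sum h4).trans ?_
    rw [← Finset.mul_sum]
    refine (mul_le_mul_of_nonneg_left (h K) (by positivity)).trans ?_
    rw [mul_assoc, div_mul_eq_mul_div, div_le_iff₀ (by positivity)]
    nlinarith
  have h5 := h3.add hρ h2
  rw [add_sub_cancel, add_halves] at h5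
  exact h5

end ThmU

open ThmU

theorem thmU {𝔸 : Type} [NormedRing 𝔸] [NormedAlgebra ℝ 𝔸] (Z : Subring 𝔸) (P : 𝔸 →ₗ[ℝ] 𝔸)
    (hP : ∀ x y, P (x * y) = P (y * x)) (hPn : ∀ x, ‖P x‖ ≤ ‖x‖)
    {I : Type} [Fintype I] (m : I → 𝔸) (c : I → 𝔸 → ℝ)
    (hc : ∀ i x, |c i x| ≤ ‖x‖) (hdec : ∀ x, x = P x + ∑ i, c i x • m i)
    (hint : ∀ i x, x ∈ Z → ∃ z : ℤ, c i x = z) (hA : Appr Z P m)
    (ρ : ℝ) (hρ0 : 0 < ρ) (hρ1 : ρ < 1) (U : (PowerSeries 𝔸)ˣ)
    (hU0 : PowerSeries.coeff 0 (U : PowerSeries 𝔸) = 1)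
    (hUZ : ∀ k, PowerSeries.coeff k (U : PowerSeries 𝔸) ∈ Z)
    (hUb : ∃ b, Bd ρ (U : PowerSeries 𝔸) b)
    (hUb' : ∃ b, Bd ρ ((U⁻¹ : (PowerSeries 𝔸)ˣ) : PowerSeries 𝔸) b)
    (hUt : ∀ k, tau P U k = 0) (K : ℕ) (η : ℝ) (hη : 0 < η) :
    ∃ E : (PowerSeries 𝔸)ˣ, Gam Z P E ∧
      Van K ((E : PowerSeries 𝔸) * (U : PowerSeries 𝔸) - 1) ∧
      Bd ρ ((E : PowerSeries 𝔸) * (U : PowerSeries 𝔸) - 1) η := by
  obtain ⟨C, hC0, hC⟩ := rounding Z P hPn m c hc hdec hA ρ hρ0 hρ1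
  set θ : ℝ := min η (min (1 / 4) (1 / (8 * C))) with hθ
  have hθ0 : 0 < θ := by positivity
  have hθ1 : θ ≤ η := min_le_left _ _
  have hθ2 : θ ≤ 1 / 4 := (min_le_right _ _).trans (min_le_left _ _)
  have hθ3 : θ * (8 * C) ≤ 1 := by
    rw [← le_div_iff₀ (by positivity)]
    exact (min_le_right _ _).trans (min_le_right _ _)
  have hlim : Tendsto (fun n : ℕ => (∑ i, ‖m i‖) * ρ ^ n / (1 - ρ)) atTop (𝓝 0) := by
    have := ((tendsto_pow_atTop_nhds_zero_of_lt_one hρ0.le hρ1).const_mul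
      (∑ i, ‖m i‖)).div_const (1 - ρ)
    simpa using this
  obtain ⟨L, hL1, hL2⟩ := ((hlim.eventually (gt_mem_nhds (half_pos hθ0))).and
    (eventually_ge_atTop (max K 1))).exists
  have hL3 : 1 ≤ L := (le_max_right _ _).trans hL2
  obtain ⟨E0, hE0, hV⟩ := formal Z P hP m c hdec hint hA U hU0 hUZ hUt L hL3
  set V := E0 * U with hVd
  have hVt : ∀ k, tau P V k = 0 := fun k => by rw [hVd, tau_mul P hP, hE0.2.2.2.2, hUt, add_zero]
  obtain ⟨b1, hb1⟩ : (V : PowerSeries 𝔸) ∈ BB 𝔸 ρ hρ0.le :=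
    (BB 𝔸 ρ hρ0.le).mul_mem (finS_le_BB hρ0.le hE0.2.1) hUb
  obtain ⟨b2, hb2⟩ : ((V⁻¹ : (PowerSeries 𝔸)ˣ) : PowerSeries 𝔸) ∈ BB 𝔸 ρ hρ0.le := by
    rw [hVd, mul_inv_rev]
    exact (BB 𝔸 ρ hρ0.le).mul_mem hUb' (finS_le_BB hρ0.le hE0.2.2.2.1)
  have hb20 := hb2.nonneg
  obtain ⟨δ, hδ, hcont⟩ := rs_cont hρ0.le hb1 (θ / 2 / (b2 + 1)) (by positivity)
  have hvan : ∀ t : ℝ, Van L ((ru t V : PowerSeries 𝔸) - 1) := fun t => by
    have := van_rs hV t
    rwa [map_sub, map_one] at this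
  have step : ∀ t t' : ℝ, 0 ≤ t → t ≤ 1 → 0 ≤ t' → t' ≤ 1 → |t' - t| ≤ δ →
      (∃ E : (PowerSeries 𝔸)ˣ, Gam Z P E ∧
        Van L (((E * ru t V : (PowerSeries 𝔸)ˣ) : PowerSeries 𝔸) - 1) ∧
        Bd ρ (((E * ru t V : (PowerSeries 𝔸)ˣ) : PowerSeries 𝔸) - 1) θ) →
      ∃ E : (PowerSeries 𝔸)ˣ, Gam Z P E ∧
        Van L (((E * ru t' V : (PowerSeries 𝔸)ˣ) : PowerSeries 𝔸) - 1) ∧
        Bd ρ (((E * ru t' V : (PowerSeries 𝔸)ˣ) : PowerSeries 𝔸) - 1) θ := by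
    rintro t t' h0 h1 h0' h1' hd ⟨E, hE, hz, hb⟩
    set z := ((E * ru t V : (PowerSeries 𝔸)ˣ) : PowerSeries 𝔸) - 1 with hzd
    set Y := (((ru t V)⁻¹ : (PowerSeries 𝔸)ˣ) : PowerSeries 𝔸) *
      ((ru t' V : PowerSeries 𝔸) - ru t V) with hY
    have hYv : Van L Y := by
      have := (hvan t').sub (hvan t)
      rw [sub_sub_sub_cancel_right] at this
      exact this.mul_left _
    have hYb : Bd ρ Y (θ / 2) := by
      refine ((bd_rs hρ0.le hb2 h0 h1).mul hρ0.le (hcont t t' h0 h1 h0' h1' hd)).le ?_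
      rw [← mul_div_assoc, div_le_iff₀ (by positivity)]
      nlinarith
    have h4 : ((E * ru t' V : (PowerSeries 𝔸)ˣ) : PowerSeries 𝔸) - 1 = z + Y + z * Y := by
      have h5 : (ru t V : PowerSeries 𝔸) * Y = (ru t' V : PowerSeries 𝔸) - ru t V := by
        rw [hY, ← mul_assoc, Units.mul_inv, one_mul]
      have h6 : (ru t' V : PowerSeries 𝔸) = ru t V + ru t V * Y := by rw [h5]; abel
      rw [hzd, Units.val_mul, Units.val_mul, h6]; noncomm_ring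
    obtain ⟨E', hE', g1, g2⟩ := hC L (2 * θ) (E * ru t' V) hL3 (by positivity) (by linarith)
      (fun k => by rw [tau_mul P hP, hE.2.2.2.2, tau_ru, hVt, smul_zero, add_zero])
      (by rw [h4]; exact (hz.add hYv).add (hYv.mul_left _))
      (by
        rw [h4]
        refine ((hb.add hρ0.le hYb).add hρ0.le (hb.mul hρ0.le hYb)).le ?_
        nlinarith)
    refine ⟨E' * E, gam_mul hP hE' hE, by rwa [mul_assoc], ?_⟩
    rw [mul_assoc]
    refine g2.le ?_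
    nlinarith
  have ind : ∀ j : ℕ, ∃ E : (PowerSeries 𝔸)ˣ, Gam Z P E ∧
      Van L (((E * ru (min (j * δ) 1) V : (PowerSeries 𝔸)ˣ) : PowerSeries 𝔸) - 1) ∧
      Bd ρ (((E * ru (min (j * δ) 1) V : (PowerSeries 𝔸)ˣ) : PowerSeries 𝔸) - 1) θ := by
    intro j
    induction j with
    | zero =>
      have h1 : ((1 * ru (min (((0 : ℕ) : ℝ) * δ) 1) V : (PowerSeries 𝔸)ˣ) : PowerSeries 𝔸) - 1 = 0 := by
        rw [one_mul, ru_val, ← map_one (rs (min (((0 : ℕ) : ℝ) * δ) 1)), ← map_sub]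
        ext k
        rw [coeff_rs]
        rcases Nat.eq_zero_or_pos k with rfl | hk
        · rw [hV 0 (by omega)]; simp
        · simp [hk.ne']
      exact ⟨1, gam_one Z P, h1 ▸ Van.zero L, h1 ▸ Bd.zero.le hθ0.le⟩
    | succ j ih =>
      refine step _ _ (le_min (by positivity) zero_le_one) (min_le_right _ _)
        (le_min (by positivity) zero_le_one) (min_le_right _ _) ?_ ih
      refine (abs_min_sub_min_le_max _ _ _ _).trans ?_
      push_cast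
      rw [sub_self, abs_zero, show ((j : ℝ) + 1) * δ - j * δ = δ by ring, abs_of_pos hδ]
      exact max_le le_rfl hδ.le
  obtain ⟨j, hj⟩ := exists_nat_ge (1 / δ)
  obtain ⟨E, hE, h1, h2⟩ := ind j
  rw [min_eq_right (by rwa [div_le_iff₀ hδ] at hj), Units.val_mul, ru_val, rs_one, hVd,
    Units.val_mul, ← mul_assoc] at h1 h2
  exact ⟨E * E0, gam_mul hP hE hE0, h1.mono ((le_max_left _ _).trans hL2), h2.le hθ1⟩

end Pool.Agent.H123Z.GSC
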